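import Pool.Agent.W745.RW.Stm

/-!
# Project RW (helper745), part B: bounds for all `W k`
-/

set_option autoImplicit false
open MeasureTheory Filter Topology Complex
open scoped ContDiff

namespace Pool.Agent.W98.RW

open Pool.Agent.W745.RW

noncomputable section

lemma cd_fderiv {E : Type*} [NormedAddCommGroup E] [NormedSpace ℝ E] {f : ℂ → E} {B : Set ℂ}
    (hB : IsOpen B) (hf : ContDiffOn ℝ ∞ f B) (v : ℂ) :
    ContDiffOn ℝ ∞ (fun z => fderiv ℝ f z v) B := by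
  have h1 : ContDiffOn ℝ ∞ (fderiv ℝ f) B := hf.fderiv_of_isOpen hB (by simp)
  exact h1.clm_apply contDiffOn_const

lemma diffAt {E : Type*} [NormedAddCommGroup E] [NormedSpace ℝ E] {f : ℂ → E} {B : Set ℂ}
    (hB : IsOpen B) (hf : ContDiffOn ℝ ∞ f B) {z : ℂ} (hz : z ∈ B) : DifferentiableAt ℝ f z :=
  (hf.contDiffAt (hB.mem_nhds hz)).differentiableAt (by simp)

lemma L_fderiv (L : ℂ →L[ℝ] ℝ) {f : ℂ → ℂ} {z : ℂ} (hf : DifferentiableAt ℝ f z) (v : ℂ) :
    fderiv ℝ (fun w => L (f w)) z v = L (fderiv ℝ f z v) := by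
  have h := (L.hasFDerivAt (x := f z)).comp z hf.hasFDerivAt
  have h2 : fderiv ℝ (fun w => L (f w)) z = L.comp (fderiv ℝ f z) := h.fderiv
  rw [h2]; rfl

lemma L_fderiv2 (L : ℂ →L[ℝ] ℝ) {f : ℂ → ℂ} {B : Set ℂ} (hB : IsOpen B)
    (hf : ContDiffOn ℝ ∞ f B) {z : ℂ} (hz : z ∈ B) (v : ℂ) :
    fderiv ℝ (fun w => fderiv ℝ (fun w' => L (f w')) w v) z v =
      L (fderiv ℝ (fun w => fderiv ℝ f w v) z v) := by
  have e : (fun w => fderiv ℝ (fun w' => L (f w')) w v) =ᶠ[𝓝 z] fun w => L (fderiv ℝ f w v) := by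
    filter_upwards [hB.mem_nhds hz] with w hw
    exact L_fderiv L (diffAt hB hf hw) v
  rw [e.fderiv_eq]
  exact L_fderiv L (diffAt hB (cd_fderiv hB hf v) hz) v

lemma L_lap (L : ℂ →L[ℝ] ℝ) {f : ℂ → ℂ} {B : Set ℂ} (hB : IsOpen B)
    (hf : ContDiffOn ℝ ∞ f B) {z : ℂ} (hz : z ∈ B) :
    lap (fun w => L (f w)) z = L (lap f z) := by
  unfold lap
  rw [map_add]
  exact congrArg₂ (· + ·) (L_fderiv2 L hB hf hz 1) (L_fderiv2 L hB hf hz I)

/-- derivative of a linear combination -/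
lemma der_lin {f g : ℂ → ℂ} {z : ℂ} (hf : DifferentiableAt ℝ f z) (hg : DifferentiableAt ℝ g z)
    (c b v : ℂ) : fderiv ℝ (fun w => c * (f w + b * g w)) z v =
      c * (fderiv ℝ f z v + b * fderiv ℝ g z v) := by
  have h := ((hf.hasFDerivAt.add (hg.hasFDerivAt.const_mul b)).const_mul c).fderiv
  have h2 : fderiv ℝ (fun w => c * (f w + b * g w)) z =
      c • (fderiv ℝ f z + b • fderiv ℝ g z) := h
  rw [h2]; rfl

/-- the equation from the two compositions -/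
lemma lap_of {h : ℝ} {f : ℂ → ℂ} {B : Set ℂ} (hB : IsOpen B) (hf : ContDiffOn ℝ ∞ f B)
    {z : ℂ} (hz : z ∈ B) (h1 : Dm h (Dp h f) z = - f z) (h2 : Dp h (Dm h f) z = - f z) :
    (h : ℂ) ^ 2 * lap f z + f z = 0 := by
  have dX : DifferentiableAt ℝ (dx f) z := diffAt hB (cd_fderiv hB hf 1) hz
  have dY : DifferentiableAt ℝ (dy f) z := diffAt hB (cd_fderiv hB hf I) hz
  have eP : Dp h f = fun w => (h : ℂ) * (dx f w + (-I) * dy f w) := by
    funext w
    simp only [Dp]; ring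
  have eM : Dm h f = fun w => (h : ℂ) * (dx f w + I * dy f w) := by
    funext w
    simp only [Dm]
  have a1 : dx (Dp h f) z = (h : ℂ) * (dx (dx f) z + (-I) * dx (dy f) z) := by
    rw [eP]; exact der_lin dX dY _ _ 1
  have a2 : dy (Dp h f) z = (h : ℂ) * (dy (dx f) z + (-I) * dy (dy f) z) := by
    rw [eP]; exact der_lin dX dY _ _ I
  have a3 : dx (Dm h f) z = (h : ℂ) * (dx (dx f) z + I * dx (dy f) z) := by
    rw [eM]; exact der_lin dX dY _ _ 1
  have a4 : dy (Dm h f) z = (h : ℂ) * (dy (dx f) z + I * dy (dy f) z) := by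
    rw [eM]; exact der_lin dX dY _ _ I
  have b1 : Dm h (Dp h f) z = (h : ℂ) * (dx (Dp h f) z + I * dy (Dp h f) z) := rfl
  have b2 : Dp h (Dm h f) z = (h : ℂ) * (dx (Dm h f) z - I * dy (Dm h f) z) := rfl
  rw [b1, a1, a2] at h1
  rw [b2, a3, a4] at h2
  unfold lap
  have hI : I * I = -1 := I_mul_I
  linear_combination (1 / 2 : ℂ) * h1 + (1 / 2 : ℂ) * h2 + ((h : ℂ) ^ 2 * dy (dy f) z) * hI

lemma sol_L (L : ℂ →L[ℝ] ℝ) {h : ℝ} {f : ℂ → ℂ} {B : Set ℂ} (hB : IsOpen B) (hh : 0 < h)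
    (hf : ContDiffOn ℝ ∞ f B) (he : ∀ z ∈ B, (h : ℂ) ^ 2 * lap f z + f z = 0) :
    Sol B h (fun w => L (f w)) := by
  refine ⟨hh, L.contDiff.comp_contDiffOn hf, fun z hz => ?_⟩
  rw [L_lap L hB hf hz]
  have h1 : ((h : ℂ) ^ 2 * lap f z) = (h ^ 2) • lap f z := by
    rw [Complex.real_smul]; push_cast; rfl
  have h2 := congrArg L (he z hz)
  rw [map_add, h1, map_smul, map_zero, smul_eq_mul] at h2
  exact h2

lemma pt (h : ℝ) (X Y : ℂ) :
    ‖(h : ℂ) * (X - I * Y)‖ ^ 4 ≤ 8 * ((h ^ 2 * (X.re ^ 2 + Y.re ^ 2)) ^ 2 +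
      (h ^ 2 * (X.im ^ 2 + Y.im ^ 2)) ^ 2) := by
  have h1 : ‖(h : ℂ) * (X - I * Y)‖ ^ 2 = h ^ 2 * ((X.re + Y.im) ^ 2 + (X.im - Y.re) ^ 2) := by
    rw [norm_mul, mul_pow, Complex.sq_norm (X - I * Y), normSq_apply, Complex.norm_real,
      Real.norm_eq_abs, sq_abs]
    simp only [sub_re, sub_im, mul_re, mul_im, I_re, I_im]
    ring
  have h2 : ‖(h : ℂ) * (X - I * Y)‖ ^ 4 = (‖(h : ℂ) * (X - I * Y)‖ ^ 2) ^ 2 := by ring
  rw [h2, h1]
  set p := h ^ 2 * (X.re ^ 2 + Y.re ^ 2) with hp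
  set q := h ^ 2 * (X.im ^ 2 + Y.im ^ 2) with hq
  have h3 : h ^ 2 * ((X.re + Y.im) ^ 2 + (X.im - Y.re) ^ 2) ≤ 2 * (p + q) := by
    rw [hp, hq]
    have := mul_nonneg (sq_nonneg h) (add_nonneg (sq_nonneg (X.re - Y.im)) (sq_nonneg (X.im + Y.re)))
    nlinarith
  have h4 : 0 ≤ h ^ 2 * ((X.re + Y.im) ^ 2 + (X.im - Y.re) ^ 2) := by positivity
  calc (h ^ 2 * ((X.re + Y.im) ^ 2 + (X.im - Y.re) ^ 2)) ^ 2 ≤ (2 * (p + q)) ^ 2 :=
        pow_le_pow_left₀ h4 h3 2
    _ ≤ 8 * (p ^ 2 + q ^ 2) := by nlinarith [sq_nonneg (p - q)]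

/-- one step -/
lemma step {C : ℝ} (h2 : ∀ (U K K' : Set ℂ), IsOpen U → IsCompact K → IsCompact K' → K' ⊆ U →
    ∀ (h : ℝ) (u : ℂ → ℝ), Sol U h u → Metric.cthickening (5 * h) K ⊆ K' →
    ∫ z in K, (h ^ 2 * (dx u z ^ 2 + dy u z ^ 2)) ^ 2 ≤ C * ∫ z in K', u z ^ 4)
    {B K K' : Set ℂ} (hB : IsOpen B) (hK : IsCompact K) (hK' : IsCompact K') (hKB : K ⊆ B)
    (hK'B : K' ⊆ B) {h : ℝ} (hh : 0 < h) (hc : Metric.cthickening (5 * h) K ⊆ K')
    {f g : ℂ → ℂ} (hf : ContDiffOn ℝ ∞ f B)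
    (he : ∀ z ∈ B, (h : ℂ) ^ 2 * lap f z + f z = 0) (hg : ContDiffOn ℝ ∞ g B)
    (hfg : ∀ z ∈ B, Dp h f z = g z) :
    ∫ z in K, ‖g z‖ ^ 4 ≤ 16 * |C| * ∫ z in K', ‖f z‖ ^ 4 := by
  have hm : MeasurableSet K := hK.measurableSet
  have hm' : MeasurableSet K' := hK'.measurableSet
  have key : ∀ L : ℂ →L[ℝ] ℝ, (∀ w, |L w| ≤ ‖w‖) →
      ∫ z in K, (h ^ 2 * (dx (fun w => L (f w)) z ^ 2 + dy (fun w => L (f w)) z ^ 2)) ^ 2 ≤
        |C| * ∫ z in K', ‖f z‖ ^ 4 := by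
    intro L hL
    have hs := sol_L L hB hh hf he
    have h3 := h2 B K K' hB hK hK' hK'B h _ hs hc
    have h4 : ∫ z in K', (L (f z)) ^ 4 ≤ ∫ z in K', ‖f z‖ ^ 4 := by
      refine setIntegral_mono_on ?_ ?_ hm' fun z _ => ?_
      · exact ((hs.smooth.continuousOn.mono hK'B).pow 4).integrableOn_compact hK'
      · exact ((hf.continuousOn.mono hK'B).norm.pow 4).integrableOn_compact hK'
      · have := hL (f z)
        calc (L (f z)) ^ 4 = |L (f z)| ^ 4 := by rw [Even.pow_abs (by decide)]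
          _ ≤ ‖f z‖ ^ 4 := pow_le_pow_left₀ (abs_nonneg _) this 4
    have h5 : 0 ≤ ∫ z in K', (L (f z)) ^ 4 := by
      refine integral_nonneg fun z => ?_
      positivity
    calc _ ≤ C * ∫ z in K', (L (f z)) ^ 4 := h3
      _ ≤ |C| * ∫ z in K', (L (f z)) ^ 4 := by gcongr; exact le_abs_self C
      _ ≤ _ := by gcongr
  have k1 := key reCLM (fun w => by simpa using abs_re_le_norm w)
  have k2 := key imCLM (fun w => by simpa using abs_im_le_norm w)
  set F : (ℂ →L[ℝ] ℝ) → ℂ → ℝ := fun L z =>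
    (h ^ 2 * (dx (fun w => L (f w)) z ^ 2 + dy (fun w => L (f w)) z ^ 2)) ^ 2 with hF
  have hint : ∀ L : ℂ →L[ℝ] ℝ, IntegrableOn (F L) K := by
    intro L
    have hs : ContDiffOn ℝ ∞ (fun w => L (f w)) B := L.contDiff.comp_contDiffOn hf
    have c1 : ContinuousOn (dx (fun w => L (f w))) K :=
      (cd_fderiv hB hs 1).continuousOn.mono hKB
    have c2 : ContinuousOn (dy (fun w => L (f w))) K :=
      (cd_fderiv hB hs I).continuousOn.mono hKB
    exact ((continuousOn_const.mul ((c1.pow 2).add (c2.pow 2))).pow 2).integrableOn_compact hK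
  have h6 : ∫ z in K, ‖g z‖ ^ 4 ≤ ∫ z in K, 8 * (F reCLM z + F imCLM z) := by
    refine setIntegral_mono_on ?_ ?_ hm fun z hz => ?_
    · exact ((hg.continuousOn.mono hKB).norm.pow 4).integrableOn_compact hK
    · exact ((hint reCLM).add (hint imCLM)).const_mul 8
    · have hzB := hKB hz
      have d := diffAt hB hf hzB
      have e1 : dx (fun w => reCLM (f w)) z = (dx f z).re := L_fderiv reCLM d 1
      have e2 : dy (fun w => reCLM (f w)) z = (dy f z).re := L_fderiv reCLM d I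
      have e3 : dx (fun w => imCLM (f w)) z = (dx f z).im := L_fderiv imCLM d 1
      have e4 : dy (fun w => imCLM (f w)) z = (dy f z).im := L_fderiv imCLM d I
      simp only [hF]
      rw [e1, e2, e3, e4, ← hfg z hzB]
      exact pt h (dx f z) (dy f z)
  have h7 : ∫ z in K, 8 * (F reCLM z + F imCLM z) =
      8 * ((∫ z in K, F reCLM z) + ∫ z in K, F imCLM z) := by
    rw [integral_const_mul, integral_add (hint reCLM) (hint imCLM)]
  rw [h7] at h6
  linarith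

theorem bd (hW : SW) (h2 : SG2) : SBd := by
  obtain ⟨C, hC⟩ := h2
  intro B hB h u hs hlim hb
  have main : ∀ k : ℕ, ∀ K : Set ℂ, IsCompact K → K ⊆ B → ∃ C' : ℝ, ∀ᶠ n in atTop,
      ∫ z in K, ‖W (h n) (u n) (k : ℤ) z‖ ^ 4 ≤ C' := by
    intro k
    induction k with
    | zero =>
      intro K hK hKB
      obtain ⟨C', hC'⟩ := hb K hK hKB
      refine ⟨C', hC'.mono fun n hn => ?_⟩
      refine le_trans (le_of_eq ?_) hn
      refine setIntegral_congr_fun hK.measurableSet fun z _ => ?_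
      have e : W (h n) (u n) ((0 : ℕ) : ℤ) z = (u n z : ℂ) := rfl
      simp only [e, Complex.norm_real, Real.norm_eq_abs]
      rw [Even.pow_abs (by decide)]
    | succ k ih =>
      intro K hK hKB
      obtain ⟨δ, hδ, hδB⟩ := hK.exists_cthickening_subset_open hB hKB
      obtain ⟨C', hC'⟩ := ih (Metric.cthickening δ K) hK.cthickening hδB
      refine ⟨16 * |C| * C', ?_⟩
      have hsmall : ∀ᶠ n in atTop, 5 * h n ≤ δ := by
        have : Tendsto (fun n => 5 * h n) atTop (𝓝 (5 * 0)) := hlim.const_mul 5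
        rw [mul_zero] at this
        exact (this.eventually (eventually_le_nhds hδ))
      filter_upwards [hC', hsmall] with n hn hn'
      obtain ⟨w1, w2, w3, w4⟩ := hW B hB (h n) (u n) (hs n)
      have hfk := w1 (k : ℤ)
      have hfk1 := w1 ((k : ℤ) + 1)
      have he : ∀ z ∈ B, ((h n : ℝ) : ℂ) ^ 2 * lap (W (h n) (u n) (k : ℤ)) z +
          W (h n) (u n) (k : ℤ) z = 0 := by
        intro z hz
        refine lap_of hB hfk hz ?_ ?_
        · have e : Dp (h n) (W (h n) (u n) (k : ℤ)) =ᶠ[𝓝 z] W (h n) (u n) ((k : ℤ) + 1) := by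
            filter_upwards [hB.mem_nhds hz] with w hw
            exact w2 _ w hw
          have e2 := w3 ((k : ℤ) + 1) z hz
          rw [add_sub_cancel_right] at e2
          rw [← e2]
          simp only [Dm, dx, dy]
          rw [e.fderiv_eq]
        · have e : Dm (h n) (W (h n) (u n) (k : ℤ)) =ᶠ[𝓝 z]
              fun w => - W (h n) (u n) ((k : ℤ) - 1) w := by
            filter_upwards [hB.mem_nhds hz] with w hw
            exact w3 _ w hw
          have e2 := w2 ((k : ℤ) - 1) z hz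
          rw [sub_add_cancel] at e2
          rw [← e2]
          simp only [Dp, dx, dy]
          rw [e.fderiv_eq]
          have e3 : fderiv ℝ (fun w => - W (h n) (u n) ((k : ℤ) - 1) w) z =
              - fderiv ℝ (W (h n) (u n) ((k : ℤ) - 1)) z := fderiv_neg
          rw [e3]
          simp only [ContinuousLinearMap.neg_apply]
          ring
      have h5 := step hC hB hK hK.cthickening hKB hδB (hs n).hpos
        (Metric.cthickening_mono hn' K) hfk he hfk1 (fun z hz => w2 _ z hz)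
      have e : ((k + 1 : ℕ) : ℤ) = (k : ℤ) + 1 := by push_cast; rfl
      rw [e]
      refine h5.trans ?_
      gcongr
  intro k K hK hKB
  rcases Int.eq_nat_or_neg k with ⟨m, hm | hm⟩
  · rw [hm]; exact main m K hK hKB
  · obtain ⟨C', hC'⟩ := main m K hK hKB
    refine ⟨C', hC'.mono fun n hn => ?_⟩
    refine le_trans (le_of_eq ?_) hn
    refine setIntegral_congr_fun hK.measurableSet fun z hz => ?_
    obtain ⟨w1, w2, w3, w4⟩ := hW B hB (h n) (u n) (hs n)
    have e := congrArg (fun t : ℂ => ‖t‖) (w4 (m : ℤ) z (hKB hz))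
    simp only [norm_mul, norm_pow, norm_neg, norm_one, one_pow, one_mul, RCLike.norm_conj] at e
    simp only [hm]
    rw [← e]

end

end Pool.Agent.W98.RW
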